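import Pool.Agent.helper64.OT.SpecG

set_option autoImplicit false

namespace Pool.Agent.OG

open Finset Pool.Agent.OT Pool.Agent.SPI Pool.Agent.helper85.PG
open scoped Pointwise

theorem SUP (hPLN : Pool.Agent.SPI.PLN_stmt) : SUP_stmt := by
  classical
  intro p _ d P κ _ hκ
  set A : Finset (ZMod p) := P 1 with hA
  set S : Finset (ZMod p) := Sk P κ with hS
  rcases Nat.eq_zero_or_pos A.card with h0 | h0
  · rw [h0, Nat.cast_zero, zero_mul]
    positivity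
  have hA0 : (0 : ℝ) < (A.card : ℝ) := Nat.cast_pos.2 h0
  have hpl := hPLN p A (fun _ => 1)
  have hpl' : ∑ t : ZMod p, ‖ft A (fun _ => (1 : ℂ)) t‖ ^ 2 = p * A.card := by
    rw [hpl]
    simp
  have hlow : ∀ s ∈ S, (A.card : ℝ) / 2 ≤ ‖ft A (fun _ => (1 : ℂ)) s‖ := by
    intro s hs
    have hs' : ∀ y ∈ A, ‖ps (s * y) - 1‖ ≤ κ := by
      have h := hs
      rw [hS] at h
      unfold Sk at h
      exact (mem_filter.1 h).2
    have e1 : ft A (fun _ => (1 : ℂ)) s = (A.card : ℂ) + ∑ y ∈ A, (ps (s * y) - 1) := by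
      unfold ft
      rw [sum_sub_distrib, sum_const, nsmul_eq_mul, mul_one]
      have : ∀ y ∈ A, (1 : ℂ) * (ZMod.stdAddChar (s * y) : ℂ) = ps (s * y) := by
        intro y _
        rw [one_mul]
        rfl
      rw [sum_congr rfl this]
      ring
    have e2 : ‖∑ y ∈ A, (ps (s * y) - 1)‖ ≤ (A.card : ℝ) / 2 := by
      refine (norm_sum_le _ _).trans ?_
      refine (sum_le_sum fun y hy => (hs' y hy).trans hκ).trans (le_of_eq ?_)
      rw [sum_const, nsmul_eq_mul]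
      ring
    have e3 : ‖(A.card : ℂ)‖ ≤ ‖ft A (fun _ => (1 : ℂ)) s‖ + ‖∑ y ∈ A, (ps (s * y) - 1)‖ := by
      have e4 : (A.card : ℂ) = ft A (fun _ => (1 : ℂ)) s - ∑ y ∈ A, (ps (s * y) - 1) := by rw [e1]; ring
      rw [e4]
      exact norm_sub_le _ _
    rw [Complex.norm_natCast] at e3
    linarith
  have hsum : (S.card : ℝ) * ((A.card : ℝ) / 2) ^ 2 ≤ p * A.card := by
    rw [← hpl']
    calc (S.card : ℝ) * ((A.card : ℝ) / 2) ^ 2 = ∑ s ∈ S, ((A.card : ℝ) / 2) ^ 2 := by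
          rw [sum_const, nsmul_eq_mul]
      _ ≤ ∑ s ∈ S, ‖ft A (fun _ => (1 : ℂ)) s‖ ^ 2 :=
          sum_le_sum fun s hs => pow_le_pow_left₀ (by positivity) (hlow s hs) 2
      _ ≤ ∑ t : ZMod p, ‖ft A (fun _ => (1 : ℂ)) t‖ ^ 2 :=
          sum_le_sum_of_subset_of_nonneg (subset_univ _) fun _ _ _ => sq_nonneg _
  have h2 : ((A.card : ℝ) * S.card) * A.card ≤ (4 * p) * A.card := by nlinarith
  exact le_of_mul_le_mul_right h2 hA0

end Pool.Agent.OG
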