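import Pool.Agent.helper64.OT.SpecM

set_option autoImplicit false

namespace Pool.Agent.OT

open Finset

theorem DIA_sq {p : ℕ} [Fact p.Prime] (χ : MulChar (ZMod p) ℂ) (y : ZMod p) :
    χ y * (starRingEnd ℂ) (χ y) = if y = 0 then 0 else 1 := by
  split_ifs with h
  · rw [h, MulChar.map_zero, zero_mul]
  · have h1 : IsUnit y := isUnit_iff_ne_zero.2 h
    obtain ⟨u, rfl⟩ := h1
    have h2 : ‖χ (u : ZMod p)‖ = 1 := DirichletCharacter.unit_norm_eq_one (n := p) χ u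
    rw [Complex.mul_conj, Complex.normSq_eq_norm_sq, h2]
    norm_num

theorem DIA_some {p : ℕ} [Fact p.Prime] (χ : MulChar (ZMod p) ℂ) (T : ℕ) (c : ZMod p) :
    Tp χ T (some c) (some c) = (((∑ x : ZMod p, psi T x) - psi T (-c) : ℝ) : ℂ) := by
  unfold Tp
  have h1 : ∀ x : ZMod p, (psi T x : ℂ) * (ch χ (some c) x * (starRingEnd ℂ) (ch χ (some c) x)) =
      ((psi T x - if x = -c then psi T (-c) else 0 : ℝ) : ℂ) := by
    intro x
    have h2 : ch χ (some c) x * (starRingEnd ℂ) (ch χ (some c) x) = if x + c = 0 then 0 else 1 := DIA_sq χ (x + c)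
    rw [h2]
    by_cases hx : x = -c
    · rw [if_pos hx, if_pos (by rw [hx]; ring), hx, sub_self, mul_zero, Complex.ofReal_zero]
    · rw [if_neg hx, if_neg (fun h => hx (eq_neg_of_add_eq_zero_left h)), sub_zero, mul_one]
  rw [Finset.sum_congr rfl fun x _ => h1 x, ← Complex.ofReal_sum, Finset.sum_sub_distrib,
    Finset.sum_ite_eq' Finset.univ (-c), if_pos (Finset.mem_univ _)]

theorem DIA_none {p : ℕ} [Fact p.Prime] (χ : MulChar (ZMod p) ℂ) (T : ℕ) :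
    Tp χ T none none = ((∑ x : ZMod p, psi T x : ℝ) : ℂ) := by
  unfold Tp
  rw [Complex.ofReal_sum]
  refine Finset.sum_congr rfl fun x _ => ?_
  have h2 : ch χ none x * (starRingEnd ℂ) (ch χ none x) = 1 := by
    change (1 : ℂ) * (starRingEnd ℂ) 1 = 1
    rw [map_one, one_mul]
  rw [h2, mul_one]

theorem DIA (hPSI : PSI_stmt) : DIA_stmt := by
  intro p _ χ T hT hTp
  obtain ⟨hψ, hsum⟩ := hPSI p T hT hTp
  have hN : (0 : ℝ) ≤ (p : ℝ) / T := by positivity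
  rw [Fintype.sum_option, DIA_none, hsum, Complex.norm_real, Real.norm_of_nonneg hN]
  have h1 : ∀ c : ZMod p, ((p : ℝ) / T) ^ 4 - 4 * ((p : ℝ) / T) ^ 3 * psi T (-c) ≤ ‖Tp χ T (some c) (some c)‖ ^ 4 := by
    intro c
    rw [DIA_some, hsum, Complex.norm_real, Real.norm_eq_abs]
    have h2 : |(p : ℝ) / T - psi T (-c)| ^ 4 = ((p : ℝ) / T - psi T (-c)) ^ 4 := by
      rw [← abs_pow, abs_of_nonneg (by positivity)]
    rw [h2]
    have h3 : ((p : ℝ) / T - psi T (-c)) ^ 4 - (((p : ℝ) / T) ^ 4 - 4 * ((p : ℝ) / T) ^ 3 * psi T (-c)) =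
        psi T (-c) ^ 2 * ((2 * ((p : ℝ) / T) - psi T (-c)) ^ 2 + 2 * ((p : ℝ) / T) ^ 2) := by ring
    have h4 : 0 ≤ psi T (-c) ^ 2 * ((2 * ((p : ℝ) / T) - psi T (-c)) ^ 2 + 2 * ((p : ℝ) / T) ^ 2) := by positivity
    linarith
  have h5 : ∑ c : ZMod p, (((p : ℝ) / T) ^ 4 - 4 * ((p : ℝ) / T) ^ 3 * psi T (-c)) =
      p * ((p : ℝ) / T) ^ 4 - 4 * ((p : ℝ) / T) ^ 3 * ((p : ℝ) / T) := by
    rw [Finset.sum_sub_distrib, Finset.sum_const, ← Finset.mul_sum, Finset.card_univ, ZMod.card, nsmul_eq_mul]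
    have h6 : ∑ c : ZMod p, psi T (-c) = ∑ c : ZMod p, psi T c := Equiv.sum_comp (Equiv.neg (ZMod p)) fun x => psi T x
    rw [h6, hsum]
  have h7 := Finset.sum_le_sum fun c (_ : c ∈ (Finset.univ : Finset (ZMod p))) => h1 c
  rw [h5] at h7
  have h8 : ((p : ℝ) - 3) * ((p : ℝ) / T) ^ 4 = ((p : ℝ) / T) ^ 4 + (p * ((p : ℝ) / T) ^ 4 - 4 * ((p : ℝ) / T) ^ 3 * ((p : ℝ) / T)) := by
    ring
  rw [h8]
  exact add_le_add le_rfl h7

end Pool.Agent.OT
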