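import Pool.Agent.helper64.OT.SpecI

/-!
# Row `TIC` (MP_f6e9a2_nt, project OT): a set with few separated points
-/

set_option autoImplicit false

namespace Pool.Agent.OL

open Finset Pool.Agent.OT Pool.Agent.SPI Pool.Agent.helper85.PG
open scoped Pointwise

lemma TIC_cls {p : ℕ} [NeZero p] {h : ℕ} (hh : 0 < h) {D : Finset (ZMod p)} {R : ℝ}
    (hS : ∀ S : Finset (ZMod p), S ⊆ D → Sep h S → (S.card : ℝ) ≤ R)
    (J : Finset ℕ) (f : ℕ → ZMod p) (c d : ℕ) (hf : ∀ j ∈ J, f j ∈ D)
    (hv : ∀ j ∈ J, (f j).val + d = j * h + c) : (J.card : ℝ) ≤ R := by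
  have key : ∀ j ∈ J, ∀ j' ∈ J, j ≤ j' → (f j).val / h = (f j').val / h → j = j' := by
    intro j hj j' hj' hle he
    have h1 := hv j hj
    have h2 := hv j' hj'
    obtain ⟨k, rfl⟩ := Nat.exists_eq_add_of_le hle
    have h3 : (f (j + k)).val = (f j).val + k * h := by
      have : (j + k) * h = j * h + k * h := by ring
      omega
    rw [h3, Nat.add_mul_div_right _ _ hh] at he
    omega
  have key2 : ∀ j ∈ J, ∀ j' ∈ J, (f j).val / h = (f j').val / h → j = j' := by
    intro j hj j' hj' he
    rcases le_total j j' with hle | hle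
    · exact key j hj j' hj' hle he
    · exact (key j' hj' j hj hle he.symm).symm
  have hinj : Set.InjOn f (J : Set ℕ) := by
    intro j hj j' hj' he
    exact key2 j (by simpa using hj) j' (by simpa using hj') (by rw [he])
  have hcard : (J.image f).card = J.card := Finset.card_image_of_injOn hinj
  have hsub : J.image f ⊆ D := by
    intro s hs
    obtain ⟨j, hj, rfl⟩ := Finset.mem_image.mp hs
    exact hf j hj
  have hsep : Sep h (J.image f) := by
    intro s hs s' hs' he
    obtain ⟨j, hj, rfl⟩ := Finset.mem_image.mp hs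
    obtain ⟨j', hj', rfl⟩ := Finset.mem_image.mp hs'
    rw [key2 j hj j' hj' he]
  rw [← hcard]
  exact hS _ hsub hsep

theorem TIC (hCEL : CEL_stmt) : TIC_stmt := by
  intro p _ h D R hh hS
  have : NeZero p := ⟨(Fact.out : p.Prime).ne_zero⟩
  refine ⟨?_, ?_⟩
  · intro J b hJ
    set A : Finset ℕ := J.filter fun j => ((j * h : ℕ) : ZMod p) + b ∈ D with hA
    have hval : ∀ j ∈ J, (((j * h : ℕ) : ZMod p) + b).val = (j * h + b.val) % p := by
      intro j hj
      rw [ZMod.val_add, ZMod.val_natCast, Nat.mod_eq_of_lt (hJ j hj)]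
    have hb : b.val < p := ZMod.val_lt b
    have hsplit : A = A.filter (fun j => j * h + b.val < p) ∪ A.filter (fun j => ¬ (j * h + b.val < p)) :=
      (Finset.filter_union_filter_not_eq _ _).symm
    have h1 : ((A.filter (fun j => j * h + b.val < p)).card : ℝ) ≤ R := by
      refine TIC_cls hh hS _ (fun j => ((j * h : ℕ) : ZMod p) + b) b.val 0 ?_ ?_
      · intro j hj
        exact (Finset.mem_filter.mp (Finset.mem_filter.mp hj).1).2
      · intro j hj
        have hj1 := Finset.mem_filter.mp hj
        have hj2 := Finset.mem_filter.mp hj1.1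
        show (((j * h : ℕ) : ZMod p) + b).val + 0 = j * h + b.val
        rw [hval j hj2.1, Nat.mod_eq_of_lt hj1.2, add_zero]
    have h2 : ((A.filter (fun j => ¬ (j * h + b.val < p))).card : ℝ) ≤ R := by
      refine TIC_cls hh hS _ (fun j => ((j * h : ℕ) : ZMod p) + b) b.val p ?_ ?_
      · intro j hj
        exact (Finset.mem_filter.mp (Finset.mem_filter.mp hj).1).2
      · intro j hj
        have hj1 := Finset.mem_filter.mp hj
        have hj2 := Finset.mem_filter.mp hj1.1
        have hjp := hJ j hj2.1
        have hge : p ≤ j * h + b.val := not_lt.mp hj1.2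
        show (((j * h : ℕ) : ZMod p) + b).val + p = j * h + b.val
        rw [hval j hj2.1, Nat.mod_eq_sub_mod hge, Nat.mod_eq_of_lt (by omega)]
        omega
    have h3 : (A.card : ℝ) ≤ ((A.filter (fun j => j * h + b.val < p)).card : ℝ) +
        ((A.filter (fun j => ¬ (j * h + b.val < p))).card : ℝ) := by
      have h4 : A.card ≤ (A.filter (fun j => j * h + b.val < p)).card +
          (A.filter (fun j => ¬ (j * h + b.val < p))).card := by
        calc A.card = (A.filter (fun j => j * h + b.val < p) ∪
              A.filter (fun j => ¬ (j * h + b.val < p))).card := by rw [← hsplit]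
          _ ≤ _ := Finset.card_union_le _ _
      exact_mod_cast h4
    linarith
  · intro B j
    obtain ⟨S, hSD, hcard, hsep⟩ := hCEL p D h hh
    have hR : (S.card : ℝ) ≤ R := hS S hSD hsep
    have h1 : (B.filter fun b => ((j * h : ℕ) : ZMod p) + b ∈ D).card ≤ D.card := by
      refine Finset.card_le_card_of_injOn (fun b => ((j * h : ℕ) : ZMod p) + b) ?_ ?_
      · intro b hb
        exact (Finset.mem_filter.mp hb).2
      · intro x _ y _ hxy
        exact add_left_cancel hxy
    have h2 : ((B.filter fun b => ((j * h : ℕ) : ZMod p) + b ∈ D).card : ℝ) ≤ (h : ℝ) * S.card := by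
      exact_mod_cast h1.trans hcard
    calc ((B.filter fun b => ((j * h : ℕ) : ZMod p) + b ∈ D).card : ℝ) ≤ (h : ℝ) * S.card := h2
      _ ≤ h * R := by gcongr

end Pool.Agent.OL
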